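import Mathlib
import Pool.Agent.Helper40.Lin.Defs

/-!
The projective space: topology and action of invertible matrices.
-/

set_option autoImplicit false

open MeasureTheory Filter Topology
open scoped LinearAlgebra.Projectivization Matrix Polynomial

namespace Pool.Agent.Helper26.Lin

open Pool.Agent.Helper40.Lin

/-- the quotient map -/
private def qm (k : Type*) [Field k] (m : ℕ) (v : {v : Fin m → k // v ≠ 0}) : PS k m :=
  (Projectivization.mk k v.1 v.2 : ℙ k (Fin m → k))

private theorem qm_quot (k : Type*) [NormedField k] (m : ℕ) : IsQuotientMap (qm k m) :=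
  isQuotientMap_quotient_mk' (s := projectivizationSetoid k (Fin m → k))

private theorem qm_surj {k : Type*} [Field k] {m : ℕ} (x : PS k m) : ∃ v, qm k m v = x := by
  refine ⟨⟨Projectivization.rep (K := k) (V := Fin m → k) x,
    Projectivization.rep_nonzero (K := k) (V := Fin m → k) x⟩, ?_⟩
  exact Projectivization.mk_rep (K := k) (V := Fin m → k) x

private theorem qm_eq {k : Type*} [Field k] {m : ℕ} {v w : {v : Fin m → k // v ≠ 0}} :
    qm k m v = qm k m w ↔ ∃ a : kˣ, a • w.1 = v.1 :=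
  Projectivization.mk_eq_mk_iff k v.1 w.1 v.2 w.2

private theorem qm_PF {k : Type*} [Field k] {m : ℕ} {F : Submodule k (Fin m → k)}
    {v : {v : Fin m → k // v ≠ 0}} : qm k m v ∈ (PF F : Set (PS k m)) ↔ v.1 ∈ F := by
  show Projectivization.submodule (K := k) (V := Fin m → k)
    (Projectivization.mk k v.1 v.2 : ℙ k (Fin m → k)) ≤ F ↔ v.1 ∈ F
  rw [Projectivization.submodule_mk, Submodule.span_singleton_le_iff_mem]

private theorem gl_ne {k : Type*} [Field k] {m : ℕ} (g : GL (Fin m) k) {v : Fin m → k}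
    (hv : v ≠ 0) : g.1.mulVec v ≠ 0 := by
  intro h
  apply hv
  have h1 := congrArg (Matrix.mulVec (g⁻¹ : GL (Fin m) k).1) h
  have h2 : (g⁻¹ : GL (Fin m) k).1 * g.1 = 1 := by
    rw [← Matrix.GeneralLinearGroup.coe_mul, inv_mul_cancel, Matrix.GeneralLinearGroup.coe_one]
  rw [Matrix.mulVec_mulVec, h2, Matrix.one_mulVec, Matrix.mulVec_zero] at h1
  exact h1

private theorem act_qm {k : Type*} [Field k] {m : ℕ} (g : GL (Fin m) k)
    (v : {v : Fin m → k // v ≠ 0}) : act g (qm k m v) = qm k m ⟨g.1.mulVec v.1, gl_ne g v.2⟩ := rfl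

private theorem cont_lin {k : Type*} [NontriviallyNormedField k] {m : ℕ}
    (ψ : (Fin m → k) →ₗ[k] k) : Continuous ψ := LinearMap.continuous_on_pi ψ

theorem PT6 {k : Type*} [NontriviallyNormedField k] (m : ℕ) (ψ : (Fin m → k) →ₗ[k] k) :
    ∃ φ : PS k m → ℝ, Continuous φ ∧ ∀ (v : Fin m → k) (hv : v ≠ 0),
      φ (Projectivization.mk k v hv : ℙ k (Fin m → k)) = ‖ψ v‖ / ‖v‖ := by
  have hinv : ∀ v w : {v : Fin m → k // v ≠ 0}, (projectivizationSetoid k (Fin m → k)).r v w →
      ‖ψ v.1‖ / ‖v.1‖ = ‖ψ w.1‖ / ‖w.1‖ := by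
    intro v w h
    have h1 : qm k m v = qm k m w := Quotient.sound (s := projectivizationSetoid k (Fin m → k)) h
    obtain ⟨a, ha⟩ := qm_eq.1 h1
    have ha' : (a : k) • w.1 = v.1 := ha
    have ha0 : ‖(a : k)‖ ≠ 0 := norm_ne_zero_iff.2 a.ne_zero
    rw [← ha', map_smul, norm_smul, norm_smul, mul_div_mul_left _ _ ha0]
  refine ⟨Quotient.lift (s := projectivizationSetoid k (Fin m → k))
    (fun v => ‖ψ v.1‖ / ‖v.1‖) hinv, ?_, fun v hv => rfl⟩
  refine (qm_quot k m).continuous_iff.2 ?_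
  show Continuous fun v : {v : Fin m → k // v ≠ 0} => ‖ψ v.1‖ / ‖v.1‖
  exact (((cont_lin ψ).comp continuous_subtype_val).norm).div continuous_subtype_val.norm
    fun v => norm_ne_zero_iff.2 v.2

theorem PT1 {k : Type*} [NontriviallyNormedField k] [ProperSpace k] (m : ℕ) :
    CompactSpace (PS k m) := by
  obtain ⟨c, hc⟩ := NormedField.exists_one_lt_norm k
  obtain ⟨A, hA⟩ : ∃ A : Set (Fin m → k), A = {v | 1 ≤ ‖v‖ ∧ ‖v‖ ≤ ‖c‖} := ⟨_, rfl⟩
  have hcomp : IsCompact A := by
    refine Metric.isCompact_of_isClosed_isBounded ?_ ?_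
    · rw [hA]
      exact (isClosed_le continuous_const continuous_norm).inter
        (isClosed_le continuous_norm continuous_const)
    · refine (Metric.isBounded_closedBall (x := (0 : Fin m → k)) (r := ‖c‖)).subset ?_
      intro v hv
      rw [hA] at hv
      rw [mem_closedBall_zero_iff]
      exact hv.2
  have : CompactSpace A := isCompact_iff_compactSpace.1 hcomp
  have hne : ∀ a : A, a.1 ≠ 0 := by
    rintro ⟨v, hv⟩ h
    rw [hA] at hv
    have h1 : v = 0 := h
    rw [h1] at hv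
    have h2 : (1 : ℝ) ≤ ‖(0 : Fin m → k)‖ := hv.1
    rw [norm_zero] at h2
    linarith
  have hcont : Continuous fun a : A => qm k m ⟨a.1, hne a⟩ :=
    (qm_quot k m).continuous.comp (continuous_subtype_val.subtype_mk _)
  have hsurj : Function.Surjective fun a : A => qm k m ⟨a.1, hne a⟩ := by
    intro x
    obtain ⟨v, rfl⟩ := qm_surj x
    obtain ⟨d, hd, h1, h2, _⟩ := rescale_to_shell hc (show 0 < ‖c‖ by linarith) v.2
    rw [div_self (by linarith)] at h2
    refine ⟨⟨d • v.1, by rw [hA]; exact ⟨h2, h1.le⟩⟩, ?_⟩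
    exact qm_eq.2 ⟨Units.mk0 d hd, rfl⟩
  refine ⟨?_⟩
  rw [← hsurj.range_eq]
  exact isCompact_range hcont

theorem PT2 {k : Type*} [NontriviallyNormedField k] (m : ℕ) : T2Space (PS k m) := by
  refine ⟨fun x y hxy => ?_⟩
  obtain ⟨v, rfl⟩ := qm_surj x
  obtain ⟨w, rfl⟩ := qm_surj y
  have hv : v.1 ∉ Submodule.span k {w.1} := by
    intro h
    obtain ⟨a, ha⟩ := Submodule.mem_span_singleton.1 h
    have ha0 : a ≠ 0 := by
      rintro rfl
      rw [zero_smul] at ha
      exact v.2 ha.symm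
    exact hxy (qm_eq.2 ⟨Units.mk0 a ha0, ha⟩)
  obtain ⟨ψ, hψ1, hψ2⟩ := Submodule.exists_le_ker_of_notMem hv
  have hw : ψ w.1 = 0 := hψ2 (Submodule.mem_span_singleton_self _)
  obtain ⟨φ, hφ, hφ'⟩ := PT6 m ψ
  apply separated_by_continuous hφ
  show φ (Projectivization.mk k v.1 v.2 : ℙ k (Fin m → k)) ≠
    φ (Projectivization.mk k w.1 w.2 : ℙ k (Fin m → k))
  rw [hφ' v.1 v.2, hφ' w.1 w.2, hw, norm_zero, zero_div]
  exact div_ne_zero (norm_ne_zero_iff.2 hψ1) (norm_ne_zero_iff.2 v.2)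

theorem PT3 {k : Type*} [NontriviallyNormedField k] (m : ℕ) (g : GL (Fin m) k) :
    Continuous (act g : PS k m → PS k m) := by
  refine (qm_quot k m).continuous_iff.2 ?_
  have h : (act g : PS k m → PS k m) ∘ qm k m =
      fun v => qm k m ⟨g.1.mulVec v.1, gl_ne g v.2⟩ := by
    funext v
    exact act_qm g v
  rw [h]
  have hc : Continuous fun v : {v : Fin m → k // v ≠ 0} => g.1.mulVec v.1 :=
    (Continuous.matrix_mulVec continuous_const continuous_subtype_val)
  exact (qm_quot k m).continuous.comp (hc.subtype_mk _)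

theorem PT4 {k : Type*} [Field k] (m : ℕ) (g h : GL (Fin m) k) (x : PS k m) :
    act (g * h) x = act g (act h x) ∧ act (1 : GL (Fin m) k) x = x := by
  obtain ⟨v, rfl⟩ := qm_surj x
  constructor
  · rw [act_qm, act_qm, act_qm]
    congr 1
    apply Subtype.ext
    show (g * h).1.mulVec v.1 = g.1.mulVec (h.1.mulVec v.1)
    rw [Matrix.mulVec_mulVec, Units.val_mul]
  · rw [act_qm]
    congr 1
    apply Subtype.ext
    show (1 : GL (Fin m) k).1.mulVec v.1 = v.1
    rw [Units.val_one, Matrix.one_mulVec]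

theorem PT5 {k : Type*} [NontriviallyNormedField k] (m : ℕ) (F : Submodule k (Fin m → k)) :
    IsClosed (PF F : Set (PS k m)) := by
  rw [← (qm_quot k m).isClosed_preimage]
  have h : qm k m ⁻¹' (PF F : Set (PS k m)) =
      ⋂ ψ : {ψ : (Fin m → k) →ₗ[k] k // F ≤ LinearMap.ker ψ},
        {v : {v : Fin m → k // v ≠ 0} | ψ.1 v.1 = 0} := by
    ext v
    rw [Set.mem_preimage, qm_PF, Set.mem_iInter]
    constructor
    · intro hv ψ
      exact ψ.2 hv
    · intro hv
      by_contra hn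
      obtain ⟨ψ, h1, h2⟩ := Submodule.exists_le_ker_of_notMem hn
      exact h1 (hv ⟨ψ, h2⟩)
  rw [h]
  refine isClosed_iInter fun ψ => ?_
  exact isClosed_eq ((cont_lin ψ.1).comp continuous_subtype_val) continuous_const

theorem PT7 {k : Type*} [Field k] (m : ℕ) (g : GL (Fin m) k) (F : Submodule k (Fin m → k)) :
    act g ⁻¹' (PF F : Set (PS k m)) = PF (F.comap (Matrix.mulVecLin g.1)) := by
  ext x
  obtain ⟨v, rfl⟩ := qm_surj x
  rw [Set.mem_preimage, act_qm, qm_PF, qm_PF, Submodule.mem_comap, Matrix.mulVecLin_apply]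

end Pool.Agent.Helper26.Lin
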